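import Pool.Agent.P.MP_ae6ac5_an.FG.Main

namespace Pool.Agent.Results.MP_ae6ac5_an.FreeGroups

open Pool.Agent.P.MP_ae6ac5_an.FG

/-- In a free group of finite rank at least two there are residual chains of normal subgroups of
finite index along which the determinants of `1 - c (1 - x) y` stay below `1 + η`, while the
determinant over the free group is at least `c`. -/
theorem result (α : Type) [Finite α] (x y : α) (hxy : x ≠ y) (c : ℕ) (hc : 2 ≤ c) (η : ℝ)
    (hη : 0 < η) :
    ∃ (N : ℕ → Subgroup (FreeGroup α)) (_ : ∀ i, (N i).Normal),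
      (∀ i, (N i).FiniteIndex) ∧ Antitone N ∧ ⨅ i, N i = ⊥ ∧
      (∃ μ, IsSpec (elt c (FreeGroup.of x) (FreeGroup.of y)) μ ∧ c ≤ fk μ) ∧
      ∀ i, ∃ ν, IsSpec (MonoidAlgebra.mapDomain (QuotientGroup.mk' (N i))
        (elt c (FreeGroup.of x) (FreeGroup.of y))) ν ∧ fk ν ≤ 1 + η := by
  have := Fintype.ofFinite α
  have c0 : (0 : ℝ) ≤ c := Nat.cast_nonneg _
  have c2 : (2 : ℝ) ≤ c := by exact_mod_cast hc
  have l1 : 0 < Real.log (1 + 2 * c) := Real.log_pos (by linarith)
  have l2 : 0 < Real.log (1 + η) := Real.log_pos (by linarith)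
  obtain ⟨N, h1, h2, h3⟩ := exists_chain hxy
    (ε := min 1 (Real.log (1 + η) / Real.log (1 + 2 * c))) (by positivity) (min_le_left _ _)
  have hN : ∀ i, (N i).Normal := fun i => by
    obtain ⟨_, _, _, _, π, -, -, e, -⟩ := h3 i
    exact e ▸ π.normal_ker
  have hF : ∀ i, (N i).FiniteIndex := fun i => by
    obtain ⟨_, _, _, _, π, -, -, e, -⟩ := h3 i
    exact e ▸ Subgroup.finiteIndex_ker π
  refine ⟨N, hN, hF, h1, h2, lower_free hxy N h1 h2 (by omega), fun i => ?_⟩
  obtain ⟨_, Q, _, _, π, -, s, e, -, hb⟩ := h3 i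
  let φ : (FreeGroup α ⧸ N i) ≃* Q :=
    (QuotientGroup.quotientMulEquivOfEq e.symm).trans
      (QuotientGroup.quotientKerEquivOfSurjective π s)
  have hφ : ∀ g, φ.symm.toMonoidHom (π g) = QuotientGroup.mk' (N i) g := fun g =>
    φ.symm_apply_eq.2 rfl
  have hb' := hb.map (f := φ.symm.toMonoidHom) φ.symm.injective
  rw [hφ, hφ] at hb'
  obtain ⟨ν, n1, n2⟩ := hb'.upper hc
  refine ⟨ν, ?_, n2.trans ?_⟩
  · have e2 : MonoidAlgebra.mapDomainRingHom ℤ (QuotientGroup.mk' (N i))
        (elt c (FreeGroup.of x) (FreeGroup.of y)) =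
        elt c (QuotientGroup.mk' (N i) (FreeGroup.of x))
          (QuotientGroup.mk' (N i) (FreeGroup.of y)) := by
      simp only [elt, map_sub, map_mul, map_one, map_natCast]
      simp only [MonoidAlgebra.of_apply, MonoidAlgebra.mapDomainRingHom_apply,
        MonoidAlgebra.mapDomain_single]
    rw [← e2] at n1
    exact n1
  · rw [sub_sub_cancel, ← Real.le_log_iff_exp_le (by linarith), ← le_div_iff₀ l1]
    exact min_le_right _ _

end Pool.Agent.Results.MP_ae6ac5_an.FreeGroups
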